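import Pool.Agent.Y754.RG.C

set_option autoImplicit false

/-!
# MP_8481ed_ag: all rectangular grids with at least four rows and columns

Let `r, s ≥ 4` and let `X` be the blow-up of the plane in the `r s` points `(aᵢ : bⱼ : 1)` of an
arbitrary `r × s` grid (any distinct `a₁, ..., a_r` and distinct `b₁, ..., b_s` of any infinite
field). Then `D = (r + s - 3) H - ∑ Eᵢⱼ` is special, while `h¹(X, mD) = 0` for every `m ≥ 2`; so
no proper multiple of `D` is special.

Proof. The points impose dependent conditions on the curves of degree `r + s - 3`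
(Cayley-Bacharach: a product of two Vandermonde relations). For multiplicity `m` the products
`F^A G^B x^i y^j` with `A + B < m`, `i < r`, `j < s`, where `F` and `G` are the products of the
vertical and of the horizontal lines, are linearly independent modulo the polynomials with
multiplicity `m` at all the points (expansion along the arcs through the points), and they have
degree at most `m (r + s - 3)`.
-/

namespace Pool.Agent.Results.MP_8481ed_ag.AllGrids

open Pool.Agent.Results.MP_8481ed_ag.SquareGrid Pool.Agent.Y754.RG

/-- For every `r × s` grid of points with `r, s ≥ 4` the divisor `D = (r + s - 3) H - ∑ E` is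
special, and `h¹(mD) = 0`, so that `mD` is not special, for every `m ≥ 2`. -/
theorem result (k : Type*) [Field k] [Infinite k] (r s : ℕ) (hr : 4 ≤ r) (hs : 4 ≤ s)
    (a : Fin r → k) (b : Fin s → k) (ha : Function.Injective a) (hb : Function.Injective b) :
    DistinctPoints (rgrid a b) ∧
      Special (rgrid a b) (((r + s : ℕ) : ℤ) - 3, fun _ => 1) ∧
      ∀ m : ℕ, 2 ≤ m →
        h1 (rgrid a b) (m • ((((r + s : ℕ) : ℤ) - 3, fun _ => 1) : Cls (r * s))) = 0 ∧
        ¬ Special (rgrid a b) (m • ((((r + s : ℕ) : ℤ) - 3, fun _ => 1) : Cls (r * s))) := by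
  obtain ⟨h1, h2, h3⟩ := main hr hs ha hb
  refine ⟨h1, h2, fun m hm => ⟨h3 m hm, fun h => ?_⟩⟩
  have h4 := h.2
  rw [h3 m hm] at h4
  exact lt_irrefl _ h4

end Pool.Agent.Results.MP_8481ed_ag.AllGrids
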